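import Pool.Agent.H3.DiscC

set_option autoImplicit false

namespace Pool.Agent.Results.MP_a6f573_an.NoGreatest

open MeasureTheory
open scoped NNReal

section defs
variable {S : Type} [TopologicalSpace S] [MeasurableSpace S] (A : Subalgebra ℂ C(S, ℂ))

def Equivalent (μ ν : FiniteMeasure S) : Prop :=
  ∀ f ∈ A, ∫ s, f s ∂(μ : Measure S) = ∫ s, f s ∂(ν : Measure S)

def E (μ : FiniteMeasure S) : Set (FiniteMeasure S) :=
  {ν | (ν : Measure S) ≪ (μ : Measure S) ∧ Equivalent A ν μ}

noncomputable def logInt (μ : FiniteMeasure S) (f : C(S, ℂ)) : EReal :=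
  ⨅ ε : {ε : ℝ // 0 < ε}, ((∫ s, Real.log (max ‖f s‖ ε) ∂(μ : Measure S) : ℝ) : EReal)

def HasGreatest (M : Set (FiniteMeasure S)) : Prop :=
  ∃ σ ∈ M, ∀ ν ∈ M, ∀ f ∈ A, logInt ν f ≤ logInt σ f

end defs

open Pool.Agent.H3.Disc

noncomputable def m : FiniteMeasure S := ⟨mu, inferInstance⟩
noncomputable def n : FiniteMeasure S := ⟨nu, inferInstance⟩

lemma m_mem : m ∈ E A m := ⟨Measure.AbsolutelyContinuous.rfl, fun _ _ => rfl⟩
lemma n_mem : n ∈ E A m := ⟨nu_ac, fun _ hf => nu_equiv hf⟩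

lemma cl_equiv {σ : FiniteMeasure S} (h : σ ∈ closure (E A m)) (f : C(S, ℂ)) (hf : f ∈ A) :
    In (σ : Measure S) f = In mu f := by
  have hc : IsClosed {σ : FiniteMeasure S | In (σ : Measure S) f = In mu f} := by
    simp only [Complex.ext_iff, Set.setOf_and]
    refine (isClosed_eq ?_ continuous_const).inter (isClosed_eq ?_ continuous_const)
    · simp only [In_re]
      exact FiniteMeasure.continuous_integral_continuousMap
        (⟨fun p => (f p).re, by fun_prop⟩ : C(S, ℝ))
    · have : ∀ σ : FiniteMeasure S, (In (σ : Measure S) f).im = ∫ p, (f p).im ∂(σ : Measure S) :=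
        fun σ => (Complex.imCLM.integral_comp_comm (intg _ f.continuous)).symm
      simp only [this]
      exact FiniteMeasure.continuous_integral_continuousMap
        (⟨fun p => (f p).im, by fun_prop⟩ : C(S, ℝ))
  exact closure_minimal (fun ν hν => hν.2 f hf) hc h

lemma no_greatest {M : Set (FiniteMeasure S)} (h1 : E A m ⊆ M) (h2 : M ⊆ closure (E A m)) :
    ¬ HasGreatest A M := by
  rintro ⟨σ, hσ, h⟩
  obtain ⟨a, b, ha, hb, hab⟩ := no_top (σ : Measure S) (cl_equiv (h2 hσ))
  have two : (2 : C(S, ℂ)) ∈ A := A.natCast_mem 2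
  have e1 := (le_iInf fun ε : {ε : ℝ // 0 < ε} => EReal.coe_le_coe_iff.mpr (ha ε.1 ε.2)).trans
    ((h m (h1 m_mem) _ (A.add_mem A.one_mem (A.mul_mem two z_mem))).trans
      (iInf_le _ ⟨1, one_pos⟩))
  have e2 := (le_iInf fun ε : {ε : ℝ // 0 < ε} => EReal.coe_le_coe_iff.mpr (hb ε.1 ε.2)).trans
    ((h n (h1 n_mem) _ (A.add_mem A.one_mem (A.mul_mem two w_mem))).trans
      (iInf_le _ ⟨1, one_pos⟩))
  rw [EReal.coe_le_coe_iff] at e1 e2
  linarith

lemma extreme : m ∈ (closure (E A m)).extremePoints ℝ≥0 := by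
  refine ⟨subset_closure m_mem, fun α hα β hβ hs => ?_⟩
  obtain ⟨a, b, ha, hb, hab, h⟩ := hs
  have hm : a • (α : Measure S) + b • (β : Measure S) = mu := congrArg Subtype.val h
  have hK := ae_mu
  rw [← hm, ae_add_measure_iff, Measure.ae_smul_measure_eq ha.ne',
    Measure.ae_smul_measure_eq hb.ne'] at hK
  have h1 := ww_ge _ hK.1 (cl_equiv hα)
  have h2 := ww_ge _ hK.2 (cl_equiv hβ)
  have h3 : (In mu (w * star w)).re = a * (In (α : Measure S) (w * star w)).re
      + b * (In (β : Measure S) (w * star w)).re := by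
    have hc : Continuous fun p => ((w * star w) p).re := by fun_prop
    rw [In_re, In_re, In_re, ← hm, integral_add_measure (intg _ hc) (intg _ hc),
      integral_smul_nnreal_measure, integral_smul_nnreal_measure]
    rfl
  have hab' : (a : ℝ) + b = 1 := by exact_mod_cast hab
  have ha' : (0 : ℝ) < a := ha
  have hb' : (0 : ℝ) < b := hb
  have h4 : (In mu (w * star w)).re = 2 * Real.pi := by rw [mu_ww]; simp
  have h5 : (In (α : Measure S) (w * star w)).re = 2 * Real.pi := by
    apply le_antisymm _ h1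
    by_contra hc
    push Not at hc
    have e1 := mul_lt_mul_of_pos_left hc ha'
    have e2 := mul_le_mul_of_nonneg_left h2 hb'.le
    have e3 : a * (2 * Real.pi) + b * (2 * Real.pi) = 2 * Real.pi := by
      rw [← add_mul, hab', one_mul]
    linarith
  refine Subtype.ext (eq_mu (α : Measure S) hK.1 (cl_equiv hα) ?_)
  have h6 := In_star (α : Measure S) (w * star w)
  rw [star_mul, star_star] at h6
  rw [← Complex.conj_eq_iff_re.mp h6.symm, h5, mu_ww]
  simp

theorem result : ∃ (S : Type) (_ : TopologicalSpace S) (_ : CompactSpace S) (_ : T2Space S)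
    (_ : MeasurableSpace S) (_ : BorelSpace S) (A : Subalgebra ℂ C(S, ℂ)),
    IsClosed (A : Set C(S, ℂ)) ∧
    (∀ χ : A →ₐ[ℂ] ℂ, Continuous χ → ∃! s : S, ∀ f : A, χ f = f.1 s) ∧
    (∀ f ∈ A, (∃ g ∈ A, f * g = 1) → ∃ h ∈ A, ∀ s, f s = Complex.exp (h s)) ∧
    ∃ μ : FiniteMeasure S, μ ∈ (closure (E A μ)).extremePoints ℝ≥0 ∧
      ¬ HasGreatest A (closure (E A μ)) ∧ ¬ HasGreatest A (E A μ) :=
  ⟨S, inferInstance, inferInstance, inferInstance, inferInstance, inferInstance, A, A_closed,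
    chars, logs, m, extreme, no_greatest subset_closure subset_rfl,
    no_greatest subset_rfl subset_closure⟩

end Pool.Agent.Results.MP_a6f573_an.NoGreatest
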